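import Pool.Agent.L0h5.TV.Stm
import Pool.Agent.L0h57.TU.LamG

/-!
# Project TV, module V4: the local density in characters, exactly (helper57)
-/

set_option autoImplicit false

namespace Pool.Agent.L0h57.TV

/-- **V4** -/
theorem s3_lam : Pool.Agent.L0h5.TV.S3_LAM := by
  intro k c evn κ p hn v h
  exact Pool.Agent.L0h57.TU.lam_exact k c evn κ p hn v h

end Pool.Agent.L0h57.TV
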